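import Pool.Agent.GEN.StmtsPT

set_option autoImplicit false

/-!
# GEN, row DLX: alternating sums over lists (helper85)
-/

namespace Pool.Agent.GEN.PT.H85

open Finset

theorem dl_nil {E V : Type} [AddCommGroup V] (x : List E → V) : dl x [] = 0 := by
  unfold dl
  simp

theorem dl_cons {E V : Type} [AddCommGroup V] (x : List E → V) (a : E) (l : List E) :
    dl x (a :: l) = x l - dl (fun l' => x (a :: l')) l := by
  unfold dl
  rw [List.length_cons, Finset.sum_range_succ']
  have h1 : ∀ i, (-1 : ℤ) ^ (i + 1) • x ((a :: l).eraseIdx (i + 1)) =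
      - ((-1 : ℤ) ^ i • x (a :: l.eraseIdx i)) := by
    intro i
    rw [List.eraseIdx_cons_succ, pow_succ, mul_neg, mul_one, neg_smul]
  rw [Finset.sum_congr rfl fun i _ => h1 i, Finset.sum_neg_distrib]
  simp only [pow_zero, one_smul, List.eraseIdx_cons_zero]
  abel

theorem dl_sub {E V : Type} [AddCommGroup V] (x y : List E → V) (l : List E) :
    dl (fun l' => x l' - y l') l = dl x l - dl y l := by
  unfold dl
  rw [← Finset.sum_sub_distrib]
  exact Finset.sum_congr rfl fun i _ => by rw [smul_sub]

theorem dl_dl {E V : Type} [AddCommGroup V] (l : List E) :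
    ∀ x : List E → V, dl (dl x) l = 0 := by
  induction l with
  | nil => exact fun x => dl_nil _
  | cons a l ih =>
    intro x
    rw [dl_cons]
    have h1 : (fun l' => dl x (a :: l')) = fun l' => x l' - dl (fun l'' => x (a :: l'')) l' := by
      funext l'
      exact dl_cons x a l'
    rw [h1, dl_sub, ih fun l'' => x (a :: l'')]
    abel

theorem dlx : DlxStmt := by
  intro E V _
  refine ⟨dl_nil, dl_cons, fun x l => dl_dl l x, ?_, ?_⟩
  · intro g x l
    unfold dl
    rw [List.length_map]
    exact Finset.sum_congr rfl fun i _ => by rw [List.eraseIdx_map]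
  · intro V' _ φ x l
    unfold dl
    rw [map_sum]
    exact Finset.sum_congr rfl fun i _ => by rw [map_zsmul]

end Pool.Agent.GEN.PT.H85
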